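import Mathlib

/-!
# Closed Riemannian surfaces, geodesic flow, Liouville measure, Laplace eigenfunctions

Everything is stated for a smooth surface `M` (a manifold modelled on the real plane `ℂ = ℝ²`, with
real smooth changes of coordinates) with a smooth Riemannian metric `g` in the sense of Mathlib.
The classical objects of Riemannian geometry are expressed in the charts of the atlas of `M`.
-/

set_option autoImplicit false

namespace Pool.Agent.EQ

open MeasureTheory Filter Topology Set
open scoped ContDiff Manifold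

noncomputable section

section Notions

variable {M : Type} [TopologicalSpace M] [ChartedSpace ℂ M] [IsManifold 𝓘(ℝ, ℂ) ∞ M]
  (g : Bundle.ContMDiffRiemannianMetric 𝓘(ℝ, ℂ) ∞ ℂ (fun x : M => TangentSpace 𝓘(ℝ, ℂ) x))

/-- The metric in the chart `e`: the inner product, at the point with coordinate `u`, of the
tangent vectors with coordinates `v` and `w`. -/
def gram (e : OpenPartialHomeomorph M ℂ) (u v w : ℂ) : ℝ :=
  g.inner (e.symm u)
    (mfderiv 𝓘(ℝ, ℂ) 𝓘(ℝ, ℂ) e.symm u (v : TangentSpace 𝓘(ℝ, ℂ) u))
    (mfderiv 𝓘(ℝ, ℂ) 𝓘(ℝ, ℂ) e.symm u (w : TangentSpace 𝓘(ℝ, ℂ) u))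

/-- The density `√(EG - F²)` of the Riemannian area in the chart `e` (coordinates `x + i y`). -/
def dens (e : OpenPartialHomeomorph M ℂ) (u : ℂ) : ℝ :=
  Real.sqrt (gram g e u 1 1 * gram g e u Complex.I Complex.I - gram g e u 1 Complex.I ^ 2)

/-- `μ` is the Riemannian area measure (a Borel measure on `M`): in every chart `e` of the atlas
it is `√(EG - F²) dx dy`. -/
def IsRiemannianArea [MeasurableSpace M] (μ : Measure M) : Prop :=
  ∀ e ∈ atlas ℂ M, ∀ A : Set M, MeasurableSet A → A ⊆ e.source →
    μ A = ∫⁻ u in e '' A, ENNReal.ofReal (dens g e u)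

/-- The velocity vector of the curve `γ` at time `t`, as an element of the tangent bundle. -/
def velocity (γ : ℝ → M) (t : ℝ) : TangentBundle 𝓘(ℝ, ℂ) M :=
  ⟨γ t, mfderiv 𝓘(ℝ, ℝ) 𝓘(ℝ, ℂ) γ t (1 : ℝ)⟩

/-- A geodesic (defined for all times): a smooth curve which satisfies in every chart the
geodesic equation, in the form of the Euler-Lagrange equations
`d/dt g(c', w) = (1/2) ∂_w g(c', c')` of the energy (for every constant vector `w`); here `c` is
the curve in the chart. -/
structure IsGeodesic (γ : ℝ → M) : Prop where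
  smooth : ContMDiff 𝓘(ℝ, ℝ) 𝓘(ℝ, ℂ) ∞ γ
  eq : ∀ e ∈ atlas ℂ M, ∀ t, γ t ∈ e.source → ∀ w : ℂ,
    deriv (fun s => gram g e (e (γ s)) (deriv (fun r => e (γ r)) s) w) t =
      (1 / 2) * fderiv ℝ (fun u => gram g e u (deriv (fun r => e (γ r)) t)
        (deriv (fun r => e (γ r)) t)) (e (γ t)) w

/-- The unit tangent bundle of `M`. -/
def UnitTangent : Type :=
  {ξ : TangentBundle 𝓘(ℝ, ℂ) M // g.inner ξ.proj ξ.snd ξ.snd = 1}

instance : TopologicalSpace (UnitTangent g) :=
  inferInstanceAs (TopologicalSpace {ξ : TangentBundle 𝓘(ℝ, ℂ) M //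
    g.inner ξ.proj ξ.snd ξ.snd = 1})

instance : MeasurableSpace (UnitTangent g) := borel _

instance : BorelSpace (UnitTangent g) := ⟨rfl⟩

/-- `φ` is the geodesic flow on the unit tangent bundle: `t ↦ φ t ξ` is the velocity field of a
geodesic with initial velocity `ξ`. -/
structure IsGeodesicFlow (φ : ℝ → UnitTangent g → UnitTangent g) : Prop where
  zero : ∀ ξ, φ 0 ξ = ξ
  geodesic : ∀ ξ, IsGeodesic g (fun t => (φ t ξ).1.proj)
  velocity : ∀ ξ t, velocity (fun s => (φ s ξ).1.proj) t = (φ t ξ).1

/-- The part over the tangent plane at `x` of the cone over the set `A` of unit vectors: all `r ξ`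
with `ξ ∈ A` a unit vector at `x` and `0 < r ≤ 1`. -/
def coneAt (A : Set (UnitTangent g)) (x : M) : Set (TangentSpace 𝓘(ℝ, ℂ) x) :=
  {v | ∃ r : ℝ, 0 < r ∧ r ≤ 1 ∧ ∃ ξ ∈ A, ξ.1 = ⟨x, r⁻¹ • v⟩}

/-- The area, with respect to the inner product of the metric, of a subset of the tangent plane at
`x` (in Mathlib the tangent plane is `ℂ`, by a chart; the area form of the inner product is
`√(EG - F²)` times Lebesgue measure). -/
def tangentArea (x : M) (S : Set (TangentSpace 𝓘(ℝ, ℂ) x)) : ENNReal :=
  ENNReal.ofReal (Real.sqrt (g.inner x (1 : ℂ) (1 : ℂ) *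
    g.inner x (Complex.I : ℂ) (Complex.I : ℂ) - g.inner x (1 : ℂ) (Complex.I : ℂ) ^ 2)) *
    (volume : Measure ℂ) S

/-- The Liouville measure of a (Borel) set `A` of unit tangent vectors: the integral over `x ∈ M`
of the length of the part of `A` in the unit circle of the tangent plane at `x`; this length is
twice the area of the cone over it. -/
def liouville [MeasurableSpace M] (μ : Measure M) (A : Set (UnitTangent g)) : ENNReal :=
  ∫⁻ x, 2 * tangentArea g x (coneAt g A x) ∂μ

/-- The Laplace-Beltrami operator `div grad` in the chart `e` (Beltrami's formula). -/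
def beltrami (e : OpenPartialHomeomorph M ℂ) (f : M → ℝ) (u : ℂ) : ℝ :=
  1 / dens g e u *
    (fderiv ℝ (fun z =>
        (gram g e z Complex.I Complex.I * fderiv ℝ (fun y => f (e.symm y)) z 1 -
          gram g e z 1 Complex.I * fderiv ℝ (fun y => f (e.symm y)) z Complex.I) /
          dens g e z) u 1 +
      fderiv ℝ (fun z =>
        (gram g e z 1 1 * fderiv ℝ (fun y => f (e.symm y)) z Complex.I -
          gram g e z 1 Complex.I * fderiv ℝ (fun y => f (e.symm y)) z 1) /
          dens g e z) u Complex.I)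

/-- `ψ` is a (smooth) eigenfunction: `Δ ψ = lam ψ`, with `Δ = - div grad ≥ 0`. -/
structure IsEigenfunction (ψ : M → ℝ) (lam : ℝ) : Prop where
  smooth : ContMDiff 𝓘(ℝ, ℂ) 𝓘(ℝ, ℝ) ∞ ψ
  eq : ∀ e ∈ atlas ℂ M, ∀ u ∈ e.target, -beltrami g e ψ u = lam * ψ (e.symm u)

end Notions

/-- A closed Riemannian surface: a compact connected smooth surface without boundary with a
smooth Riemannian metric, and its Riemannian area measure. -/
structure ClosedSurface where
  M : Type
  [top : TopologicalSpace M]
  [t2 : T2Space M]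
  [compact : CompactSpace M]
  [conn : ConnectedSpace M]
  [charted : ChartedSpace ℂ M]
  [manifold : IsManifold 𝓘(ℝ, ℂ) ∞ M]
  [meas : MeasurableSpace M]
  [borel : BorelSpace M]
  g : Bundle.ContMDiffRiemannianMetric 𝓘(ℝ, ℂ) ∞ ℂ (fun x : M => TangentSpace 𝓘(ℝ, ℂ) x)
  area : Measure M
  isArea : IsRiemannianArea g area

attribute [instance] ClosedSurface.top ClosedSurface.t2 ClosedSurface.compact
  ClosedSurface.conn ClosedSurface.charted ClosedSurface.manifold ClosedSurface.meas
  ClosedSurface.borel

namespace ClosedSurface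

/-- The geodesic flow exists for all times and is ergodic with respect to the Liouville measure:
every invariant Borel set of unit tangent vectors has measure zero or full measure. -/
def IsErgodic (S : ClosedSurface) : Prop :=
  ∃ φ : ℝ → UnitTangent S.g → UnitTangent S.g, IsGeodesicFlow S.g φ ∧
    ∀ A : Set (UnitTangent S.g), MeasurableSet A → (∀ t, φ t ⁻¹' A = A) →
      liouville S.g S.area A = 0 ∨ liouville S.g S.area Aᶜ = 0

/-- a sequence of `L²`-normalised eigenfunctions with eigenvalues tending to infinity -/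
structure EigenSequence (S : ClosedSurface) (ψ : ℕ → S.M → ℝ) (lam : ℕ → ℝ) : Prop where
  eigen : ∀ j, IsEigenfunction S.g (ψ j) (lam j)
  normalised : ∀ j, ∫ x, ψ j x ^ 2 ∂S.area = 1
  tendsto : Tendsto lam atTop atTop

/-- equidistribution in the sense of the problem -/
def Equidistributed (S : ClosedSurface) (ψ : ℕ → S.M → ℝ) : Prop :=
  ∀ D : Set S.M, IsOpen D → S.area (frontier D) = 0 →
    Tendsto (fun j => ∫ x in D, ψ j x ^ 2 ∂S.area) atTop
      (𝓝 (S.area.real D / S.area.real univ))

end ClosedSurface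

/-- The final statement of the project: for every `ε > 0` there is a closed Riemannian surface with
ergodic geodesic flow, a sequence of normalised eigenfunctions with eigenvalues tending to infinity
and an open set `D` of positive area, with boundary of area zero, such that the mass of every
eigenfunction of the sequence in `D` is at most `ε` times the share `area D / area M`. -/
def FinalStatement : Prop :=
  ∀ ε : ℝ, 0 < ε → ∃ S : ClosedSurface, S.IsErgodic ∧
    ∃ (ψ : ℕ → S.M → ℝ) (lam : ℕ → ℝ), S.EigenSequence ψ lam ∧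
      ∃ D : Set S.M, IsOpen D ∧ S.area (frontier D) = 0 ∧ 0 < S.area D ∧ S.area univ < ⊤ ∧
        ∀ j, ∫ x in D, ψ j x ^ 2 ∂S.area ≤ ε * (S.area.real D / S.area.real univ)

end

end Pool.Agent.EQ
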